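import Pool.Agent.X26.LF.Stm

set_option autoImplicit false

namespace Pool.Agent.X249.LF

open Finset Pool.Agent.X26.LF

open Classical in
theorem form_eq {m p N : ℕ} (u : Fin m → ZMod p) (ι : Fin m ↪ Fin N) (x : Fin N → ZMod p) :
    ∑ i, (∑ j, if ι j = i then u j else 0) * x i = ∑ j, u j * x (ι j) := by
  simp_rw [Finset.sum_mul]
  rw [Finset.sum_comm]
  refine Finset.sum_congr rfl fun j _ => ?_
  simp

open Classical in
theorem coef_eq {m p N : ℕ} (u : Fin m → ZMod p) (ι : Fin m ↪ Fin N) (j : Fin m) :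
    (∑ j', if ι j' = ι j then u j' else 0) = u j := by
  simp [ι.injective.eq_iff]

open Classical in
theorem coef_supp {m p N : ℕ} (u : Fin m → ZMod p) (ι : Fin m ↪ Fin N) (i : Fin N)
    (h : (∑ j', if ι j' = i then u j' else 0) ≠ 0) : ∃ j, ι j = i := by
  obtain ⟨j, -, hj⟩ := Finset.exists_ne_zero_of_sum_ne_zero h
  exact ⟨j, by by_contra hn; simp [hn] at hj⟩

open Classical in
theorem count_dep {m N : ℕ} (ι : Fin m ↪ Fin N) :
    (univ.filter fun ι' : Fin m ↪ Fin N => ∀ j, ∃ k, ι k = ι' j).card ≤ m.factorial := by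
  have h : (univ.filter fun ι' : Fin m ↪ Fin N => ∀ j, ∃ k, ι k = ι' j) ⊆
      (univ : Finset (Equiv.Perm (Fin m))).image (fun σ => σ.toEmbedding.trans ι) := by
    intro ι' h'
    rw [mem_filter] at h'
    choose f hf using h'.2
    have hinj : Function.Injective f := by
      intro a b hab
      have : ι' a = ι' b := by rw [← hf a, ← hf b, hab]
      exact ι'.injective this
    rw [mem_image]
    refine ⟨Equiv.ofBijective f (Finite.injective_iff_bijective.1 hinj), mem_univ _, ?_⟩
    ext j
    simp [hf]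
  refine (card_le_card h).trans (card_image_le.trans ?_)
  rw [card_univ, Fintype.card_perm, Fintype.card_fin]

open Classical in
theorem t_SM (hC : S_CNT) : S_SM := by
  intro m p N _ u s hm hu hT
  set c : (Fin m ↪ Fin N) → Fin N → ZMod p := fun ι i => ∑ j, if ι j = i then u j else 0 with hc
  set X : (Fin N → ZMod p) → ℕ := fun x =>
    (univ.filter fun ι : Fin m ↪ Fin N => ∑ j, u j * x (ι j) = s).card with hX
  set T : ℕ := N.descFactorial m with hTd
  have hcard : Fintype.card (Fin m ↪ Fin N) = T := by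
    rw [Fintype.card_embedding_eq, Fintype.card_fin, Fintype.card_fin]
  have hp : 0 < p := (Fact.out : p.Prime).pos
  have hc0 : ∀ ι, c ι ≠ 0 := by
    intro ι h0
    have h1 : c ι (ι ⟨0, hm⟩) = u ⟨0, hm⟩ := coef_eq u ι _
    rw [h0] at h1
    exact hu _ h1.symm
  -- first moment
  have e1 : p * ∑ x, X x = T * p ^ N := by
    have : ∑ x, X x = ∑ ι : Fin m ↪ Fin N,
        (univ.filter fun x : Fin N → ZMod p => ∑ j, u j * x (ι j) = s).card := by
      simp only [hX, card_filter]
      rw [sum_comm]
    rw [this, mul_sum]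
    have h1 : ∀ ι : Fin m ↪ Fin N, p * (univ.filter fun x : Fin N → ZMod p =>
        ∑ j, u j * x (ι j) = s).card = p ^ N := by
      intro ι
      have := (hC p N (c ι) 0 s 0 (hc0 ι)).1
      simp only [hc, form_eq] at this
      exact this
    rw [sum_congr rfl (fun ι _ => h1 ι), sum_const, card_univ, hcard, smul_eq_mul]
  -- second moment
  have e2 : p ^ 2 * ∑ x, X x ^ 2 ≤ T * (T + m.factorial * p) * p ^ N := by
    have h0 : ∑ x, X x ^ 2 = ∑ ι : Fin m ↪ Fin N, ∑ ι' : Fin m ↪ Fin N,
        (univ.filter fun x : Fin N → ZMod p =>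
          ∑ j, u j * x (ι j) = s ∧ ∑ j, u j * x (ι' j) = s).card := by
      have h1 : ∀ x, X x ^ 2 = ∑ ι : Fin m ↪ Fin N, ∑ ι' : Fin m ↪ Fin N,
          if ∑ j, u j * x (ι j) = s ∧ ∑ j, u j * x (ι' j) = s then 1 else 0 := by
        intro x
        simp only [hX, card_filter, sq, sum_mul_sum]
        refine sum_congr rfl fun ι _ => sum_congr rfl fun ι' _ => ?_
        split_ifs <;> simp_all
      rw [sum_congr rfl (fun x _ => h1 x), sum_comm]
      refine sum_congr rfl fun ι _ => ?_
      rw [sum_comm]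
      refine sum_congr rfl fun ι' _ => ?_
      rw [card_filter]
    rw [h0, mul_sum]
    have h2 : ∀ ι : Fin m ↪ Fin N, p ^ 2 * ∑ ι' : Fin m ↪ Fin N,
        (univ.filter fun x : Fin N → ZMod p =>
          ∑ j, u j * x (ι j) = s ∧ ∑ j, u j * x (ι' j) = s).card ≤
        (T + m.factorial * p) * p ^ N := by
      intro ι
      have h3 : ∀ ι' : Fin m ↪ Fin N, p ^ 2 * (univ.filter fun x : Fin N → ZMod p =>
          ∑ j, u j * x (ι j) = s ∧ ∑ j, u j * x (ι' j) = s).card ≤
          p ^ N + if (∀ j, ∃ k, ι k = ι' j) then p * p ^ N else 0 := by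
        intro ι'
        by_cases hd : ∃ l, c ι' = fun i => l * c ι i
        · have h4 : ∀ j, ∃ k, ι k = ι' j := by
            obtain ⟨l, hl⟩ := hd
            intro j
            apply coef_supp u ι (ι' j)
            intro h5
            have h6 : c ι' (ι' j) = u j := coef_eq u ι' j
            rw [hl] at h6
            have h7 : c ι (ι' j) = 0 := h5
            simp only [h7, mul_zero] at h6
            exact hu j h6.symm
          rw [if_pos h4]
          have h8 : (univ.filter fun x : Fin N → ZMod p =>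
              ∑ j, u j * x (ι j) = s ∧ ∑ j, u j * x (ι' j) = s).card ≤
              (univ.filter fun x : Fin N → ZMod p => ∑ j, u j * x (ι j) = s).card :=
            card_le_card (fun x hx => by
              rw [mem_filter] at hx ⊢
              exact ⟨hx.1, hx.2.1⟩)
          have h9 := (hC p N (c ι) 0 s 0 (hc0 ι)).1
          simp only [hc, form_eq] at h9
          calc p ^ 2 * _ ≤ p ^ 2 * (univ.filter fun x : Fin N → ZMod p =>
                ∑ j, u j * x (ι j) = s).card := Nat.mul_le_mul_left _ h8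
            _ = p * p ^ N := by rw [sq, mul_assoc, h9]
            _ ≤ _ := Nat.le_add_left _ _
        · have h9 := (hC p N (c ι) (c ι') s s (hc0 ι)).2 hd
          simp only [hc, form_eq] at h9
          rw [h9]
          exact Nat.le_add_right _ _
      rw [mul_sum]
      refine (sum_le_sum fun ι' _ => h3 ι').trans ?_
      rw [sum_add_distrib, sum_const, card_univ, hcard, smul_eq_mul, ← sum_filter, sum_const,
        smul_eq_mul, add_mul]
      refine Nat.add_le_add_left ?_ _
      calc _ ≤ m.factorial * (p * p ^ N) := Nat.mul_le_mul_right _ (count_dep ι)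
        _ = _ := by ring
    refine (sum_le_sum fun ι _ => h2 ι).trans ?_
    rw [sum_const, card_univ, hcard, smul_eq_mul, mul_assoc]
  -- Cauchy-Schwarz
  set G := univ.filter fun x : Fin N → ZMod p => ∃ ι : Fin m ↪ Fin N, ∑ j, u j * x (ι j) = s with hG
  have e3 : (∑ x, X x) ^ 2 ≤ G.card * ∑ x, X x ^ 2 := by
    have h1 : ∑ x, X x = ∑ x ∈ G, X x := by
      symm
      apply sum_subset (subset_univ _)
      intro x _ hx
      rw [hG, mem_filter] at hx
      simp only [mem_univ, true_and, not_exists] at hx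
      simp only [hX, card_eq_zero]
      exact filter_eq_empty_iff.2 (fun ι _ => hx ι)
    rw [h1]
    refine sq_sum_le_card_mul_sum_sq.trans ?_
    exact Nat.mul_le_mul_left _ (sum_le_sum_of_subset (subset_univ _))
  have e4 : (univ.filter fun x : Fin N → ZMod p =>
      ¬ ∃ ι : Fin m ↪ Fin N, ∑ j, u j * x (ι j) = s).card + G.card = p ^ N := by
    have := card_filter_add_card_filter_not (s := (univ : Finset (Fin N → ZMod p)))
      (fun x => ∃ ι : Fin m ↪ Fin N, ∑ j, u j * x (ι j) = s)
    rw [card_univ, Fintype.card_fun, ZMod.card, Fintype.card_fin] at this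
    rw [add_comm]
    exact this
  -- arithmetic
  have hTpos : 0 < T := by
    have : 0 < 8 * m.factorial * p := by positivity
    omega
  have hq : 0 < p ^ N := by positivity
  have e5 : T * p ^ N ≤ G.card * (T + m.factorial * p) := by
    have h1 : (p * ∑ x, X x) ^ 2 ≤ G.card * (p ^ 2 * ∑ x, X x ^ 2) := by
      calc (p * ∑ x, X x) ^ 2 = p ^ 2 * (∑ x, X x) ^ 2 := by ring
        _ ≤ p ^ 2 * (G.card * ∑ x, X x ^ 2) := Nat.mul_le_mul_left _ e3
        _ = _ := by ring
    rw [e1] at h1
    have h2 : (T * p ^ N) ^ 2 ≤ G.card * (T * (T + m.factorial * p) * p ^ N) :=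
      h1.trans (Nat.mul_le_mul_left _ e2)
    have h3 : (T * p ^ N) * (T * p ^ N) ≤ (T * p ^ N) * (G.card * (T + m.factorial * p)) := by
      calc (T * p ^ N) * (T * p ^ N) = (T * p ^ N) ^ 2 := by ring
        _ ≤ _ := h2
        _ = _ := by ring
    exact Nat.le_of_mul_le_mul_left h3 (by positivity)
  set F := m.factorial * p with hF
  have hF8 : 8 * F ≤ T := by rw [hF]; linarith [hT]
  -- G (T + F) ≥ T p^N, F ≤ T / 8, so 9 G ≥ 8 p^N
  have e6 : 8 * p ^ N ≤ 9 * G.card := by
    have h1 : 8 * (T * p ^ N) ≤ G.card * (9 * T) := by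
      calc 8 * (T * p ^ N) ≤ 8 * (G.card * (T + F)) := Nat.mul_le_mul_left _ e5
        _ = G.card * (8 * T + 8 * F) := by ring
        _ ≤ G.card * (9 * T) := Nat.mul_le_mul_left _ (by omega)
    have h2 : T * (8 * p ^ N) ≤ T * (9 * G.card) := by
      calc T * (8 * p ^ N) = 8 * (T * p ^ N) := by ring
        _ ≤ _ := h1
        _ = _ := by ring
    exact Nat.le_of_mul_le_mul_left h2 hTpos
  omega

end Pool.Agent.X249.LF
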